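import Pool.Agent.Helper79.GS.St5

/-!
# Project GS (MP_c2d095_lc), module EP2: the calls of the procedure are E2 functions
-/

set_option autoImplicit false

namespace Pool.Agent.Helper51.GS

open Pool.Agent.Helper79.GS Pool.Agent.Helper19.SK Pool.Agent.Helper73.DC Finset
open scoped Classical

private theorem ite' {p : List (Fin 5) → (ℕ → ℕ) → Prop} {inst : ∀ w v, Decidable (p w v)}
    {F G : VF (Fin 5)} (hp : E2P p) (hF : E2 F) (hG : E2 G) :
    E2 (fun w v => @ite ℕ (p w v) (inst w v) (F w v) (G w v)) := by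
  have h := e_ite hp hF hG
  have e : (fun w v => @ite ℕ (p w v) (inst w v) (F w v) (G w v)) =
      fun w v => @ite ℕ (p w v) (Classical.propDecidable _) (F w v) (G w v) := by
    funext w v
    congr
  rw [e]
  exact h

private theorem zz' (hEF : StEF) {N T r c a b u k m fl d s t x : VF (Fin 5)} (hN : E2 N) (hT : E2 T)
    (hr : E2 r) (hc : E2 c) (ha : E2 a) (hb : E2 b) (hu : E2 u) (hk : E2 k) (hm : E2 m)
    (hfl : E2 fl) (hd : E2 d) (hs : E2 s) (ht : E2 t) (hx : E2 x) :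
    E2 (fun w v => zz (N w v) w (T w v) (r w v) (c w v) (a w v) (b w v) (u w v) (k w v) (m w v)
      (fl w v) (d w v) (s w v) (t w v) (x w v)) :=
  hEF.2.2.1 N T r c a b u k m fl d s t x hN hT hr hc ha hb hu hk hm hfl hd hs ht hx

section

variable (hEW : StEW) (hEB2 : StEB2) (hEA : StEA) (hEF : StEF)
  {N r c a b u k m fl d s t x J : VF (Fin 5)} (hN : E2 N) (hr : E2 r) (hc : E2 c) (ha : E2 a)
  (hb : E2 b) (hu : E2 u) (hk : E2 k) (hm : E2 m) (hfl : E2 fl) (hd : E2 d) (hs : E2 s)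
  (ht : E2 t) (hx : E2 x) (hJ : E2 J)

include hEW hEB2 hEF hN hr hc hu hJ in
private theorem d1 : E2 (fun w v => del1 (N w v) w (r w v) (c w v) (u w v) (J w v)) := by
  have hn : E2 (α := Fin 5) (fun w _ => nW w) := hEW.2.1
  have hc' : E2 (fun w v => 1 - c w v) := e_sub (e_con 1) hc
  have hJ' : E2 (fun w v => J w v - 2) := e_sub hJ (e_con 2)
  have h0 : E2 (α := Fin 5) (fun _ _ => 0) := e_con 0
  unfold del1
  refine ite' (hEB2.2.2.2 N (fun w _ => nW w) c u hN hn hc hu).2.1 ?_ ?_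
  · refine ite' (e_eq hJ (e_con 0)) ?_ ?_
    · exact zz' hEF hN (e_con 2) hr hc h0 h0 hu h0 h0 h0 h0 h0 h0 h0
    · refine ite' (e_eq hJ (e_con 1)) ?_ ?_
      · exact zz' hEF hN (e_con 3) hr hc' hu hu hu
          (hEB2.2.2.2 N (fun w _ => nW w) (fun w v => 1 - c w v) u hN hn hc' hu).2.2
          h0 h0 h0 h0 h0 h0
      · refine ite' (hEF.2.2.2.2.1 N c u (fun w v => J w v - 2) hN hc hu hJ').1 ?_ h0
        exact zz' hEF hN (e_con 3) hr hc' hu hJ' hJ'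
          (hEB2.2.2.2 N (fun w _ => nW w) (fun w v => 1 - c w v) (fun w v => J w v - 2)
            hN hn hc' hJ').2.2 h0 h0 h0 h0 h0 h0
  · exact zz' hEF hN (e_con 3) hr hc hu hu hu
      (hEB2.2.2.2 N (fun w _ => nW w) c u hN hn hc hu).2.2 h0 h0 h0 h0 h0 h0

include hEF hN hr hc hu hJ in
private theorem d2 : E2 (fun w v => del2' (N w v) w (r w v) (c w v) (u w v) (J w v)) := by
  have h0 : E2 (α := Fin 5) (fun _ _ => 0) := e_con 0
  unfold del2'
  refine ite' (hEF.2.2.2.2.1 N c u J hN hc hu hJ).2 ?_ h0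
  exact zz' hEF hN (e_con 1) (e_sub hr (e_con 1)) (e_sub (e_con 1) hc) h0 h0 hJ
    h0 h0 h0 h0 h0 h0 h0

include hEF hN hr hc ha hb hu hk hJ in
private theorem d3 :
    E2 (fun w v => del3 (N w v) w (r w v) (c w v) (a w v) (b w v) (u w v) (k w v) (J w v)) := by
  have h0 : E2 (α := Fin 5) (fun _ _ => 0) := e_con 0
  have hJ1 : E2 (fun w v => J w v - 1) := e_sub hJ (e_con 1)
  unfold del3
  refine ite' (e_eq hJ (e_con 0)) ?_ ?_
  · exact zz' hEF hN (e_con 2) hr hc h0 h0 hu h0 h0 h0 h0 h0 h0 h0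
  · exact zz' hEF hN (e_con 4) hr hc ha hb hu (e_sub hk (e_con 1)) (e_div hJ1 (e_con 2))
      (e_mod hJ1 (e_con 2)) h0 h0 h0 h0

include hEF hN hr hc ha hb hu hk hm hfl hJ in
private theorem d4 :
    E2 (fun w v => del4 (N w v) w (r w v) (c w v) (a w v) (b w v) (u w v) (k w v) (m w v)
      (fl w v) (J w v)) := by
  have hnm : E2 (fun w v => nmN (N w v) w) := (hEF.2.1 N hN).2.2.1
  unfold del4
  exact zz' hEF hN (e_con 5) hr hc ha hb hu hk hm hfl (e_add hEF.1 (e_con 1)) hnm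
    (e_add (e_mul hnm (e_add hnm (e_con 2))) hnm) hJ

include hEA hEF hN hr hc ha hb hu hk hm hfl hd hs ht hx hJ in
private theorem d5 :
    E2 (fun w v => del5 (N w v) w (r w v) (c w v) (a w v) (b w v) (u w v) (k w v) (m w v)
      (fl w v) (d w v) (s w v) (t w v) (x w v) (J w v)) := by
  have h0 : E2 (α := Fin 5) (fun _ _ => 0) := e_con 0
  have hnm : E2 (fun w v => nmN (N w v) w) := (hEF.2.1 N hN).2.2.1
  have hNb : E2 (fun w v => NbN (N w v) w) := (hEF.2.1 N hN).2.1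
  have hT := hEA.2.2.2.1 (fun w v => nmN (N w v) w) s t hnm hs ht
  have hJ2 : E2 (fun w v => J w v / 2) := e_div hJ (e_con 2)
  have hd1 : E2 (fun w v => d w v - 1) := e_sub hd (e_con 1)
  unfold del5
  refine ite' (e_eq hd (e_con 0)) ?_ ?_
  · refine ite' (e_and (e_le (e_con 2) hT.1) (e_and (e_lt hT.2.1 hNb) (e_lt hT.2.2 hNb))) ?_ h0
    exact zz' hEF hN (e_con 6) hr hc ha hb hu hk h0 hfl h0 hT.2.1 hT.2.2 h0
  · refine ite' (e_eq (e_mod hJ (e_con 2)) (e_con 0)) ?_ ?_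
    · exact zz' hEF hN (e_con 5) hr hc ha hb hu hk hm hfl hd1 hs hJ2 hx
    · exact zz' hEF hN (e_con 5) hr hc ha hb hu hk hm hfl hd1 hJ2 ht hx

include hEF hN hr hc ha hb hk hs ht hJ in
private theorem d6 :
    E2 (fun w v => del6 (N w v) w (r w v) (c w v) (a w v) (b w v) (k w v) (s w v) (t w v)
      (J w v)) := by
  have h0 : E2 (α := Fin 5) (fun _ _ => 0) := e_con 0
  unfold del6
  refine ite' (e_eq hJ (e_con 0)) ?_ ?_
  · exact zz' hEF hN (e_con 2) hr hc h0 h0 hs h0 h0 h0 h0 h0 h0 h0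
  · refine ite' (e_eq hJ (e_con 1)) ?_ ?_
    · exact zz' hEF hN (e_con 2) hr (e_sub (e_con 1) hc) h0 h0 ht h0 h0 h0 h0 h0 h0 h0
    · exact zz' hEF hN (e_con 3) hr hc ha hb ht hk h0 h0 h0 h0 h0 h0

end

/-- Module EP2. -/
theorem hEP2 (hEW : StEW) (hEB2 : StEB2) (hEA : StEA) (hEF : StEF) : StEP2 := by
  intro N Z J hN hZ hJ
  have h0 : E2 (α := Fin 5) (fun _ _ => 0) := e_con 0
  have hf : ∀ i : ℕ, E2 (fun w v => fi (N w v) w (Z w v) i) := fun i =>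
    hEF.2.2.2.1 N Z (fun _ _ => i) hN hZ (e_con i)
  unfold DelN
  refine ite' (e_eq (hf 0) (e_con 1)) (d1 hEW hEB2 hEF hN (hf 1) (hf 2) (hf 5) hJ) ?_
  refine ite' (e_eq (hf 0) (e_con 2)) (d2 hEF hN (hf 1) (hf 2) (hf 5) hJ) ?_
  refine ite' (e_eq (hf 0) (e_con 3))
    (d3 hEF hN (hf 1) (hf 2) (hf 3) (hf 4) (hf 5) (hf 6) hJ) ?_
  refine ite' (e_eq (hf 0) (e_con 4))
    (d4 hEF hN (hf 1) (hf 2) (hf 3) (hf 4) (hf 5) (hf 6) (hf 7) (hf 8) hJ) ?_
  refine ite' (e_eq (hf 0) (e_con 5))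
    (d5 hEA hEF hN (hf 1) (hf 2) (hf 3) (hf 4) (hf 5) (hf 6) (hf 7) (hf 8) (hf 9) (hf 10)
      (hf 11) (hf 12) hJ) ?_
  refine ite' (e_eq (hf 0) (e_con 6))
    (d6 hEF hN (hf 1) (hf 2) (hf 3) (hf 4) (hf 6) (hf 10) (hf 11) hJ) ?_
  refine ite' (e_eq (hf 0) (e_con 7)) ?_ h0
  exact zz' hEF hN (e_con 1) (hf 1) (hf 2) h0 h0 (hf 5) h0 h0 h0 h0 h0 h0 h0

end Pool.Agent.Helper51.GS
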