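import Pool.Agent.Helper79.GS.St4

/-!
# Project GS (MP_c2d095_lc), module STK: the stack machine evaluates frames
-/

set_option autoImplicit false

namespace Pool.Agent.Helper51.GS

open Pool.Agent.Helper79.GS

/-- Module STK. -/
theorem hSTK : StSTK := by
  intro fin out cal nxt N hN d t f v hev
  induction hev with
  | ret d t f hf ht =>
    intro hfN
    have hv := (hN f hfN).1 hf
    have s0 : ∀ st : List ℕ, sstep fin out cal nxt (false, f, st) = (true, out f, st) := by
      intro st
      simp [sstep, hf]
    refine ⟨hv, fun st hst => ⟨1, ht, ?_, ?_⟩⟩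
    · rw [Function.iterate_one, s0]
    · intro i hi
      rcases i with _ | i
      · exact ⟨hfN, hst, Nat.le_add_right _ _⟩
      · have hi0 : i = 0 := by omega
        subst hi0
        rw [Function.iterate_one, s0]
        exact ⟨hv, hst, Nat.le_add_right _ _⟩
  | call d t1 t2 f u v hnf _ _ ih1 ih2 =>
    intro hfN
    obtain ⟨hcal, hnxt⟩ := (hN f hfN).2 hnf
    obtain ⟨huN, ih1⟩ := ih1 hcal
    obtain ⟨hvN, ih2⟩ := ih2 (hnxt u huN)
    refine ⟨hvN, fun st hst => ?_⟩
    have hst' : ∀ g ∈ f :: st, g < N := by
      intro g hg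
      rcases List.mem_cons.1 hg with rfl | hg
      · exact hfN
      · exact hst g hg
    obtain ⟨k1, hk1, e1, b1⟩ := ih1 (f :: st) hst'
    obtain ⟨k2, hk2, e2, b2⟩ := ih2 st hst
    have s0 : sstep fin out cal nxt (false, f, st) = (false, cal f, f :: st) := by
      simp [sstep, hnf]
    have s1 : sstep fin out cal nxt (true, u, f :: st) = (false, nxt f u, st) := by
      simp [sstep]
    have A1 : ∀ i, (sstep fin out cal nxt)^[i + 1] (false, f, st) =
        (sstep fin out cal nxt)^[i] (false, cal f, f :: st) := by
      intro i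
      rw [Function.iterate_succ_apply, s0]
    have A2 : ∀ i, (sstep fin out cal nxt)^[k1 + 2 + i] (false, f, st) =
        (sstep fin out cal nxt)^[i] (false, nxt f u, st) := by
      intro i
      rw [show k1 + 2 + i = (i + 1 + k1) + 1 by ring, A1, Function.iterate_add_apply, e1,
        Function.iterate_succ_apply, s1]
    refine ⟨k1 + 2 + k2, by omega, by rw [A2, e2], ?_⟩
    intro i hi
    rcases Nat.lt_or_ge i (k1 + 2) with h | h
    · rcases i with _ | i
      · exact ⟨hfN, hst, Nat.le_add_right _ _⟩
      · rw [A1]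
        obtain ⟨c1, c2, c3⟩ := b1 i (by omega)
        refine ⟨c1, c2, c3.trans ?_⟩
        rw [List.length_cons]
        omega
    · obtain ⟨j, rfl⟩ := Nat.exists_eq_add_of_le h
      rw [A2]
      exact b2 j (by omega)

end Pool.Agent.Helper51.GS
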